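import Pool.Agent.Helper66.UB.Dcl

/-!
# Project UB (MP_246ef5), module UB-C6: components of the strong relation
-/

set_option autoImplicit false

namespace Pool.Agent.Helper65.CG

open scoped Classical
open Pool.Agent.Helper65.CliqueGame

variable {n q m : ℕ}

namespace H66

theorem RN_comm (ℓ : Sym2 (Fin n) → ℕ) (Z : Fin q → Fin n) (F : Finset (Fin q)) (i k : Fin q) :
    RN ℓ Z F i k = RN ℓ Z F k i := by
  unfold RN
  refine Finset.filter_congr fun a _ => ?_
  constructor
  · rintro ⟨h1, ⟨h, h2, h3, h4, h5⟩, h', h6, h7, h8, h9⟩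
    exact ⟨h1, ⟨h', h6, h8, h7, h9⟩, h, h2, h4, h3, h5⟩
  · rintro ⟨h1, ⟨h, h2, h3, h4, h5⟩, h', h6, h7, h8, h9⟩
    exact ⟨h1, ⟨h', h6, h8, h7, h9⟩, h, h2, h4, h3, h5⟩

theorem str_symm {ℓ : Sym2 (Fin n) → ℕ} {Z : Fin q → Fin n} {F : Finset (Fin q)} {K : ℕ}
    {i k : Fin q} (h : Str ℓ Z F K i k) : Str ℓ Z F K k i :=
  ⟨h.1.symm, by rw [RN_comm]; exact h.2⟩

/-- The equivalence relation generated by a symmetric relation. -/
def gset {α : Type} (R : α → α → Prop) (hR : ∀ a b, R a b → R b a) : Setoid α where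
  r := Relation.ReflTransGen R
  iseqv :=
    { refl := fun _ => Relation.ReflTransGen.refl
      symm := fun {x y} h => by
        induction h with
        | refl => exact Relation.ReflTransGen.refl
        | tail _ hab ih => exact (Relation.ReflTransGen.single (hR _ _ hab)).trans ih
      trans := fun h h' => h.trans h' }

end H66

set_option linter.unusedVariables false in
theorem comps {ℓ : Sym2 (Fin n) → ℕ} (hℓ : Lab m ℓ) {Z : Fin q → Fin n}
    {F : Finset (Fin q)} {K d s₀ τ₀ : ℕ} (hd : 1 ≤ d) (hT : Tame ℓ Z F s₀ τ₀)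
    {S G₁ : Finset (Fin q)} (hG₁ : G₁ ⊆ F) (hs : (S.card : ℝ) + q / d ≤ s₀)
    (hS : ∀ i ∈ G₁, ∀ k ∈ G₁, Str ℓ Z F K i k → ∃ h ∈ S, h ∈ Hs ℓ Z F i k) :
    ∃ cls : Fin q → Fin q,
      (∀ i ∈ G₁, ∀ k ∈ G₁, cls i = cls k ↔ Relation.ReflTransGen
        (fun a b => a ∈ G₁ ∧ b ∈ G₁ ∧ Str ℓ Z F K a b) i k) ∧
      (G₁.filter (fun i => d < (G₁.filter (fun k => cls k = cls i)).card)).card ≤ τ₀ := by
  set R : Fin q → Fin q → Prop := fun a b => a ∈ G₁ ∧ b ∈ G₁ ∧ Str ℓ Z F K a b with hR
  have hsymm : ∀ a b, R a b → R b a := fun a b h => ⟨h.2.1, h.1, H66.str_symm h.2.2⟩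
  set st := H66.gset R hsymm with hst
  set cls : Fin q → Fin q := fun i => (Quotient.mk st i).out with hcls
  have hiff : ∀ i k, cls i = cls k ↔ Relation.ReflTransGen R i k := by
    intro i k
    constructor
    · intro h
      have h1 : Quotient.mk st i = Quotient.mk st k := by
        have h2 := congrArg (Quotient.mk st) h
        simpa [hcls] using h2
      exact Quotient.exact h1
    · intro h
      have h1 : Quotient.mk st i = Quotient.mk st k := Quotient.sound h
      simp only [hcls, h1]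
  have hout : ∀ i, Relation.ReflTransGen R (cls i) i := fun i => Quotient.mk_out (s := st) i
  refine ⟨cls, fun i _ k _ => hiff i k, ?_⟩
  set big := G₁.filter (fun i => d < (G₁.filter (fun k => cls k = cls i)).card) with hbig
  set Q := big.image cls with hQ
  -- the number of large classes
  have h1 : Q.card * d ≤ q := by
    have h2 : ∑ c ∈ Q, (G₁.filter (fun k => cls k = c)).card ≤ G₁.card := by
      rw [← Finset.card_biUnion]
      · apply Finset.card_le_card
        intro x hx
        rw [Finset.mem_biUnion] at hx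
        obtain ⟨c, _, hx⟩ := hx
        exact (Finset.mem_filter.1 hx).1
      · intro c _ c' _ hcc
        refine Finset.disjoint_left.2 fun x hx hx' => ?_
        exact hcc ((Finset.mem_filter.1 hx).2.symm.trans (Finset.mem_filter.1 hx').2)
    have h3 : Q.card * d ≤ ∑ c ∈ Q, (G₁.filter (fun k => cls k = c)).card := by
      rw [← smul_eq_mul]
      apply Finset.card_nsmul_le_sum
      intro c hc
      obtain ⟨i, hi, rfl⟩ := Finset.mem_image.1 hc
      exact (Finset.mem_filter.1 hi).2.le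
    have h4 := Finset.card_le_univ G₁
    rw [Fintype.card_fin] at h4
    omega
  have h2 : (S ∪ Q).card ≤ s₀ := by
    have h3 : (Q.card : ℝ) ≤ q / d := by
      have hd' : (0 : ℝ) < d := by exact_mod_cast hd
      rw [le_div_iff₀ hd']
      exact_mod_cast h1
    have h4 : ((S ∪ Q).card : ℝ) ≤ S.card + Q.card := by
      exact_mod_cast Finset.card_union_le S Q
    have h5 : ((S ∪ Q).card : ℝ) ≤ s₀ := by linarith
    exact_mod_cast h5
  have h3 := hT (S ∪ Q) h2
  refine le_trans (Finset.card_le_card ?_) h3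
  intro i hi
  rw [Finset.mem_inter]
  refine ⟨?_, hG₁ (Finset.mem_filter.1 hi).1⟩
  have h4 : cls i ∈ dcl ℓ Z (S ∪ Q) :=
    subset_dcl ℓ Z _ (Finset.mem_union_right _ (Finset.mem_image_of_mem cls hi))
  have h5 := hout i
  have key : ∀ b, Relation.ReflTransGen R (cls i) b → b ∈ dcl ℓ Z (S ∪ Q) := by
    intro b hb
    induction hb with
    | refl => exact h4
    | @tail a b _ hab ih =>
      obtain ⟨ha, hb, hab⟩ := hab
      obtain ⟨h, hhS, hh⟩ := hS a ha b hb hab
      unfold Hs at hh
      rw [Finset.mem_filter] at hh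
      obtain ⟨-, -, -, h6, h', -, h7⟩ := hh
      exact dcl_closed ℓ Z (S ∪ Q) ih (subset_dcl ℓ Z _ (Finset.mem_union_left _ hhS)) h6 h7
  exact key i h5

end Pool.Agent.Helper65.CG
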