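import Pool.Agent.Helper65.CG.Defs2

/-!
# Project UB (MP_246ef5), modules UB-C2 and UB-C3: derived slots
-/

set_option autoImplicit false

namespace Pool.Agent.Helper65.CG

open scoped Classical
open Pool.Agent.Helper65.CliqueGame

variable {n q m : ℕ}

namespace H66

theorem subset_dstep (ℓ : Sym2 (Fin n) → ℕ) (Z : Fin q → Fin n) (S : Finset (Fin q)) :
    S ⊆ dstep ℓ Z S := by
  intro k hk
  unfold dstep
  rw [Finset.mem_filter]
  exact ⟨Finset.mem_univ _, Or.inl hk⟩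

theorem subset_iter (ℓ : Sym2 (Fin n) → ℕ) (Z : Fin q → Fin n) (S : Finset (Fin q)) (t : ℕ) :
    S ⊆ (dstep ℓ Z)^[t] S := by
  induction t with
  | zero => exact Finset.Subset.refl _
  | succ t ih =>
    rw [Function.iterate_succ_apply']
    exact ih.trans (subset_dstep ℓ Z _)

theorem iter_or (ℓ : Sym2 (Fin n) → ℕ) (Z : Fin q → Fin n) (S : Finset (Fin q)) (t : ℕ) :
    t ≤ ((dstep ℓ Z)^[t] S).card ∨ dstep ℓ Z ((dstep ℓ Z)^[t] S) = (dstep ℓ Z)^[t] S := by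
  induction t with
  | zero => exact Or.inl (Nat.zero_le _)
  | succ t ih =>
    rw [Function.iterate_succ_apply']
    by_cases h : dstep ℓ Z ((dstep ℓ Z)^[t] S) = (dstep ℓ Z)^[t] S
    · right
      rw [h, h]
    · left
      rcases ih with ih | ih
      · have h1 : (dstep ℓ Z)^[t] S ⊂ dstep ℓ Z ((dstep ℓ Z)^[t] S) :=
          (subset_dstep ℓ Z _).ssubset_of_ne (Ne.symm h)
        have h2 := Finset.card_lt_card h1
        omega
      · exact absurd ih h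

theorem dstep_dcl (ℓ : Sym2 (Fin n) → ℕ) (Z : Fin q → Fin n) (S : Finset (Fin q)) :
    dstep ℓ Z (dcl ℓ Z S) = dcl ℓ Z S := by
  unfold dcl
  rcases iter_or ℓ Z S q with h | h
  · have h1 : (dstep ℓ Z)^[q] S = Finset.univ := by
      rw [← Finset.card_eq_iff_eq_univ, Fintype.card_fin]
      refine le_antisymm ?_ h
      have h2 := Finset.card_le_univ ((dstep ℓ Z)^[q] S)
      rwa [Fintype.card_fin] at h2
    rw [h1]
    exact Finset.Subset.antisymm (Finset.subset_univ _) (subset_dstep ℓ Z _)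
  · exact h

end H66

theorem subset_dcl (ℓ : Sym2 (Fin n) → ℕ) (Z : Fin q → Fin n) (S : Finset (Fin q)) :
    S ⊆ dcl ℓ Z S :=
  H66.subset_iter ℓ Z S q

theorem dcl_closed (ℓ : Sym2 (Fin n) → ℕ) (Z : Fin q → Fin n) (S : Finset (Fin q))
    {i j k h : Fin q} (hi : i ∈ dcl ℓ Z S) (hj : j ∈ dcl ℓ Z S) (h2 : 2 ≤ lk ℓ Z i j)
    (h3 : lk ℓ Z k h = lk ℓ Z i j) : k ∈ dcl ℓ Z S := by
  rw [← H66.dstep_dcl ℓ Z S]
  unfold dstep
  rw [Finset.mem_filter]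
  exact ⟨Finset.mem_univ _, Or.inr ⟨i, hi, j, hj, h, h2, h3⟩⟩

/-- UB-C3 from UB-C1. -/
theorem matched_card_of
    (rand_match : ∀ (F T : Finset (Fin q)) (M : Fin q → Finset (Fin q × Fin q)) {μ : ℕ} {ε : ℝ},
      0 < ε → ε < 1 → (1 - ε ^ 2) ^ μ ≤ 1 / 8 →
      (∀ i ∈ T, IsM (M i) ∧ (∀ p ∈ M i, p.1 ∈ F ∧ p.2 ∈ F) ∧ μ ≤ (M i).card) →
      ∃ S ⊆ F, (S.card : ℝ) ≤ 4 * ε * F.card ∧
        T.card ≤ 2 * (T.filter (fun i => ∃ p ∈ M i, p.1 ∈ S ∧ p.2 ∈ S)).card)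
    {ℓ : Sym2 (Fin n) → ℕ} {Z : Fin q → Fin n}
    {F : Finset (Fin q)} {s₀ τ₀ μ : ℕ} {ε : ℝ} (hε : 0 < ε) (hε1 : ε < 1)
    (hμ : (1 - ε ^ 2) ^ μ ≤ 1 / 8) (hT : Tame ℓ Z F s₀ τ₀) (hs : 4 * ε * q ≤ s₀) :
    (Mt ℓ Z F μ).card ≤ 2 * τ₀ := by
  have h1 : ∀ i : Fin q, ∃ M : Finset (Fin q × Fin q), i ∈ Mt ℓ Z F μ →
      M ⊆ lg ℓ Z F i ∧ IsM M ∧ M.card = μ := by
    intro i
    by_cases hi : i ∈ Mt ℓ Z F μ
    · have hi' := hi
      unfold Mt at hi'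
      rw [Finset.mem_filter] at hi'
      obtain ⟨-, M, hM⟩ := hi'
      exact ⟨M, fun _ => hM⟩
    · exact ⟨∅, fun h => absurd h hi⟩
  choose M hM using h1
  obtain ⟨S, hSF, hS1, hS2⟩ := rand_match F (Mt ℓ Z F μ) M hε hε1 hμ (by
    intro i hi
    obtain ⟨h1, h2, h3⟩ := hM i hi
    refine ⟨h2, fun p hp => ?_, h3.ge⟩
    have h4 := h1 hp
    unfold lg at h4
    rw [Finset.mem_filter, Finset.mem_product] at h4
    exact h4.1)
  have h2 : S.card ≤ s₀ := by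
    have h3 : (F.card : ℝ) ≤ q := by
      have h4 := Finset.card_le_univ F
      rw [Fintype.card_fin] at h4
      exact_mod_cast h4
    have h5 : (S.card : ℝ) ≤ s₀ := by
      refine hS1.trans (le_trans ?_ hs)
      exact mul_le_mul_of_nonneg_left h3 (by positivity)
    exact_mod_cast h5
  have h3 := hT S h2
  have h4 : (Mt ℓ Z F μ).filter (fun i => ∃ p ∈ M i, p.1 ∈ S ∧ p.2 ∈ S) ⊆ dcl ℓ Z S ∩ F := by
    intro i hi
    rw [Finset.mem_filter] at hi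
    obtain ⟨hi, p, hp, hp1, hp2⟩ := hi
    have h5 := (hM i hi).1 hp
    unfold lg at h5
    rw [Finset.mem_filter] at h5
    obtain ⟨-, -, -, h6, h, -, -, h7⟩ := h5
    rw [Finset.mem_inter]
    refine ⟨dcl_closed ℓ Z S (subset_dcl ℓ Z S hp1) (subset_dcl ℓ Z S hp2) h6 h7, ?_⟩
    unfold Mt at hi
    exact (Finset.mem_filter.1 hi).1
  have h5 := Finset.card_le_card h4
  omega

end Pool.Agent.Helper65.CG
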